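import Mathlib

/-!
# The equation `n² + n + 1 = 73 ^ k` with `8 ∣ n` and `k` odd
-/

set_option autoImplicit false

namespace Pool.Agent.Y786.PD

/-- the ring `ℤ[ρ]`, `ρ² = -1 - ρ` -/
abbrev R := QuadraticAlgebra ℤ (-1) (-1)

/-- `1 - 8 ρ` -/
def u : R := ⟨1, -8⟩

/-- `9 + 8 ρ` -/
def ubar : R := ⟨9, 8⟩

lemma re_mul' (z w : R) : (z * w).re = z.re * w.re - z.im * w.im := by
  rw [QuadraticAlgebra.re_mul]; ring

lemma im_mul' (z w : R) : (z * w).im = z.re * w.im + z.im * w.re - z.im * w.im := by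
  rw [QuadraticAlgebra.im_mul]; ring

lemma u_mul_ubar : u * ubar = ⟨73, 0⟩ := by
  ext
  · rw [re_mul']; norm_num [u, ubar]
  · rw [im_mul']; norm_num [u, ubar]

lemma one_def : (1 : R) = ⟨1, 0⟩ := rfl

lemma descent : ∀ (k : ℕ) (z : R), z.re ^ 2 - z.re * z.im + z.im ^ 2 = 73 ^ k → (8 : ℤ) ∣ z.im →
    (8 : ℤ) ∣ z.re - 1 → ¬ ((73 : ℤ) ∣ z.re ∧ (73 : ℤ) ∣ z.im) → z = u ^ k ∨ z = ubar ^ k := by
  intro k
  induction k with
  | zero =>
    intro z hN h1 h2 _
    left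
    rw [pow_zero] at hN ⊢
    obtain ⟨c, hc⟩ := h1
    obtain ⟨d, hd⟩ := h2
    have hc0 : c = 0 := by
      by_contra h
      have hc1 : 1 ≤ c ^ 2 := by
        have : 0 < c ^ 2 := by positivity
        omega
      have h3 : (2 * z.re - z.im) ^ 2 + 3 * z.im ^ 2 = 4 := by nlinarith
      rw [hc] at h3
      nlinarith [sq_nonneg (2 * z.re - 8 * c)]
    have him : z.im = 0 := by rw [hc, hc0, mul_zero]
    rw [him] at hN
    have h4 : z.re ^ 2 = 1 := by linarith
    have h5 : z.re = 1 := by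
      rcases mul_eq_zero.mp (show (z.re - 1) * (z.re + 1) = 0 by linarith) with h | h
      · linarith
      · omega
    ext
    · rw [h5]; rfl
    · rw [him]; rfl
  | succ k ih =>
    intro z hN h1 h2 h3
    have hp : Prime (73 : ℤ) := by
      rw [show (73 : ℤ) = ((73 : ℕ) : ℤ) from rfl, ← Nat.prime_iff_prime_int]
      norm_num
    have hprod : (73 : ℤ) ∣ (8 * z.re + z.im) * (9 * z.im - 8 * z.re) := by
      have e : (8 * z.re + z.im) * (9 * z.im - 8 * z.re) =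
          73 * (z.im ^ 2) - 64 * (z.re ^ 2 - z.re * z.im + z.im ^ 2) := by ring
      rw [e, hN, show (73 : ℤ) ^ (k + 1) = 73 * 73 ^ k by ring]
      exact dvd_sub (dvd_mul_right _ _) (Dvd.dvd.mul_left (dvd_mul_right _ _) _)
    obtain ⟨c1, hc1⟩ := h1
    obtain ⟨c2, hc2⟩ := h2
    rcases hp.dvd_or_dvd hprod with hd | hd
    · obtain ⟨b', hb'⟩ := hd
      obtain ⟨a', ha'⟩ : (73 : ℤ) ∣ 9 * z.re - 8 * z.im :=
        ⟨z.re - 8 * b', by linarith⟩
      have hz : z = u * ⟨a', b'⟩ := by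
        ext
        · rw [re_mul']
          simp only [u]
          linarith
        · rw [im_mul']
          simp only [u]
          linarith
      have hre : z.re = a' + 8 * b' := by linarith
      have him : z.im = 9 * b' - 8 * a' := by linarith
      have hN' : a' ^ 2 - a' * b' + b' ^ 2 = 73 ^ k := by
        have e : (a' + 8 * b') ^ 2 - (a' + 8 * b') * (9 * b' - 8 * a') + (9 * b' - 8 * a') ^ 2 =
            73 * (a' ^ 2 - a' * b' + b' ^ 2) := by ring
        rw [hre, him, e, show (73 : ℤ) ^ (k + 1) = 73 * 73 ^ k by ring] at hN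
        exact mul_left_cancel₀ (by norm_num) hN
      have h8b : (8 : ℤ) ∣ b' := by omega
      have h8a : (8 : ℤ) ∣ a' - 1 := by omega
      have hnd : ¬ ((73 : ℤ) ∣ a' ∧ (73 : ℤ) ∣ b') := by
        rintro ⟨h5, h6⟩
        exact h3 ⟨by rw [hre]; exact dvd_add h5 (h6.mul_left _),
          by rw [him]; exact dvd_sub (h6.mul_left _) (h5.mul_left _)⟩
      rcases ih ⟨a', b'⟩ hN' h8b h8a hnd with h | h
      · left
        rw [hz, h, pow_succ, mul_comm]
      · rcases Nat.eq_zero_or_pos k with hk | hk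
        · left
          rw [hz, h, hk]
          simp
        · exfalso
          obtain ⟨j, rfl⟩ : ∃ j, k = j + 1 := ⟨k - 1, by omega⟩
          have e : z = ⟨73, 0⟩ * ubar ^ j := by
            rw [hz, h, pow_succ, ← u_mul_ubar]; ring
          apply h3
          rw [e, re_mul', im_mul']
          simp
    · obtain ⟨b', hb'⟩ := hd
      obtain ⟨a', ha'⟩ : (73 : ℤ) ∣ z.re + 8 * z.im := ⟨8 * z.im - 64 * b' - 7 * z.re,
        by linarith⟩
      have hz : z = ubar * ⟨a', b'⟩ := by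
        ext
        · rw [re_mul']
          simp only [ubar]
          linarith
        · rw [im_mul']
          simp only [ubar]
          linarith
      have hre : z.re = 9 * a' - 8 * b' := by linarith
      have him : z.im = 8 * a' + b' := by linarith
      have hN' : a' ^ 2 - a' * b' + b' ^ 2 = 73 ^ k := by
        have e : (9 * a' - 8 * b') ^ 2 - (9 * a' - 8 * b') * (8 * a' + b') + (8 * a' + b') ^ 2 =
            73 * (a' ^ 2 - a' * b' + b' ^ 2) := by ring
        rw [hre, him, e, show (73 : ℤ) ^ (k + 1) = 73 * 73 ^ k by ring] at hN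
        exact mul_left_cancel₀ (by norm_num) hN
      have h8b : (8 : ℤ) ∣ b' := by omega
      have h8a : (8 : ℤ) ∣ a' - 1 := by omega
      have hnd : ¬ ((73 : ℤ) ∣ a' ∧ (73 : ℤ) ∣ b') := by
        rintro ⟨h5, h6⟩
        exact h3 ⟨by rw [hre]; exact dvd_sub (h5.mul_left _) (h6.mul_left _),
          by rw [him]; exact dvd_add (h5.mul_left _) h6⟩
      rcases ih ⟨a', b'⟩ hN' h8b h8a hnd with h | h
      · rcases Nat.eq_zero_or_pos k with hk | hk
        · right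
          rw [hz, h, hk]
          simp
        · exfalso
          obtain ⟨j, rfl⟩ : ∃ j, k = j + 1 := ⟨k - 1, by omega⟩
          have e : z = ⟨73, 0⟩ * u ^ j := by
            rw [hz, h, pow_succ, ← u_mul_ubar]; ring
          apply h3
          rw [e, re_mul', im_mul']
          simp
      · right
        rw [hz, h, pow_succ, mul_comm]

/-- `z = 1 + 2 ^ (a + 3) (x + y ρ)` with `x ≡ 4 t` modulo `8` -/
def Q (a t : ℕ) (z : R) : Prop :=
  ∃ x y : ℤ, z = ⟨1 + 2 ^ (a + 3) * x, 2 ^ (a + 3) * y⟩ ∧ (8 : ℤ) ∣ x - 4 * t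

lemma Q_mul {a t t' : ℕ} {z z' : R} (h : Q a t z) (h' : Q a t' z') : Q a (t + t') (z * z') := by
  obtain ⟨x, y, rfl, h1⟩ := h
  obtain ⟨x', y', rfl, h2⟩ := h'
  refine ⟨x + x' + 2 ^ (a + 3) * (x * x' - y * y'),
    y + y' + 2 ^ (a + 3) * (x * y' + x' * y - y * y'), ?_, ?_⟩
  · ext
    · rw [re_mul']; ring
    · rw [im_mul']; ring
  · have e : x + x' + 2 ^ (a + 3) * (x * x' - y * y') - 4 * ((t + t' : ℕ) : ℤ) =
        (x - 4 * t) + (x' - 4 * t') + 8 * (2 ^ a * (x * x' - y * y')) := by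
      push_cast; ring
    rw [e]
    exact dvd_add (dvd_add h1 h2) (dvd_mul_right _ _)

lemma Q_sq {a : ℕ} (ha : 1 ≤ a) {z : R} (h : Q a 1 z) : Q (a + 1) 1 (z * z) := by
  obtain ⟨b, rfl⟩ : ∃ b, a = b + 1 := ⟨a - 1, by omega⟩
  obtain ⟨x, y, rfl, h1⟩ := h
  refine ⟨x + 2 ^ (b + 3) * (x ^ 2 - y ^ 2), y + 2 ^ (b + 3) * (2 * x * y - y ^ 2), ?_, ?_⟩
  · ext
    · rw [re_mul']; ring
    · rw [im_mul']; ring
  · have e : x + 2 ^ (b + 3) * (x ^ 2 - y ^ 2) - 4 * ((1 : ℕ) : ℤ) =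
        (x - 4 * ((1 : ℕ) : ℤ)) + 8 * (2 ^ b * (x ^ 2 - y ^ 2)) := by
      ring
    rw [e]
    exact dvd_add h1 (dvd_mul_right _ _)

lemma Q_base : Q 1 1 (u ^ 2) := by
  refine ⟨-4, -5, ?_, by norm_num⟩
  rw [pow_two]
  ext
  · rw [re_mul']; norm_num [u]
  · rw [im_mul']; norm_num [u]

lemma Q_pow (a : ℕ) : Q (a + 1) 1 (u ^ 2 ^ (a + 1)) := by
  induction a with
  | zero => exact Q_base
  | succ a ih =>
    have := Q_sq (by omega) ih
    rwa [← pow_two, ← pow_mul, ← pow_succ] at this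

lemma Q_all (a t : ℕ) : Q (a + 1) t (u ^ (2 ^ (a + 1) * t)) := by
  induction t with
  | zero => exact ⟨0, 0, by simp [one_def], by simp⟩
  | succ t ih =>
    rw [mul_add, pow_add, mul_one]
    exact Q_mul ih (Q_pow a)

lemma u_pow_ne {k : ℕ} (hk : k % 2 = 1) (hk3 : k ≠ 1) : (u ^ k).re ≠ 1 := by
  intro h
  obtain ⟨j, hj⟩ : ∃ j, k = 1 + j := ⟨k - 1, by omega⟩
  have hj0 : j ≠ 0 := by omega
  obtain ⟨a, t, ht, hjt⟩ := Nat.exists_eq_two_pow_mul_odd hj0
  have ha : a ≠ 0 := by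
    rintro rfl
    obtain ⟨s, hs⟩ := ht
    omega
  obtain ⟨b, rfl⟩ : ∃ b, a = b + 1 := ⟨a - 1, by omega⟩
  obtain ⟨x, y, hxy, hx⟩ := Q_all b t
  rw [hj, pow_add, pow_one, hjt, hxy, re_mul'] at h
  simp only [u] at h
  have h1 : (2 : ℤ) ^ (b + 1 + 3) * (x + 8 * y) = 0 := by linarith
  have h2 : x + 8 * y = 0 := by
    rcases mul_eq_zero.mp h1 with h3 | h3
    · exact absurd h3 (by positivity)
    · exact h3
  obtain ⟨s, hs⟩ := ht
  rw [hs] at hx
  push_cast at hx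
  omega

lemma ubar_pow (k : ℕ) : ∃ x y : ℤ, ubar ^ k = ⟨1 + 8 * k + 64 * x, 8 * k + 64 * y⟩ := by
  induction k with
  | zero => exact ⟨0, 0, by simp [one_def]⟩
  | succ k ih =>
    obtain ⟨x, y, h⟩ := ih
    refine ⟨9 * x - 8 * y, k + 8 * x + y, ?_⟩
    rw [pow_succ, h]
    ext
    · rw [re_mul']; simp only [ubar]; push_cast; ring
    · rw [im_mul']; simp only [ubar]; push_cast; ring

/-- The equation `n² + n + 1 = 73 ^ k`, `8 ∣ n`, `k` odd, forces `k = 1`. -/
theorem dio {n k : ℕ} (h : n ^ 2 + n + 1 = 73 ^ k) (h8 : 8 ∣ n) (hk : k % 2 = 1) : k = 1 := by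
  by_contra hk1
  have hz : (⟨1, -(n : ℤ)⟩ : R) = u ^ k ∨ (⟨1, -(n : ℤ)⟩ : R) = ubar ^ k := by
    refine descent k ⟨1, -(n : ℤ)⟩ ?_ ?_ ?_ ?_
    · have : ((n ^ 2 + n + 1 : ℕ) : ℤ) = ((73 ^ k : ℕ) : ℤ) := by rw [h]
      push_cast at this
      simp only
      linarith
    · simp only
      exact (Int.natCast_dvd_natCast.mpr h8).neg_right
    · simp
    · rintro ⟨h1, -⟩
      simp only at h1
      omega
  rcases hz with hz | hz
  · have := congrArg QuadraticAlgebra.re hz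
    exact u_pow_ne hk hk1 this.symm
  · obtain ⟨x, y, hxy⟩ := ubar_pow k
    rw [hxy] at hz
    have := congrArg QuadraticAlgebra.re hz
    simp only at this
    omega

end Pool.Agent.Y786.PD
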